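import Pool.Agent.H80.HS.Targets

/-! The size of the constant `CC n`. -/

namespace Pool.Agent.H17.HS
open MeasureTheory Set Pool.Agent.H80.HS
open scoped ContDiff ENNReal

theorem a2 : T_A1 → T_A2 := by
  rintro ⟨A, hA⟩
  refine ⟨11 + |A|, fun n hn => ⟨CC_pos hn, ?_⟩⟩
  have hN : (1 : ℝ) ≤ n := by exact_mod_cast hn
  have hN0 : (0 : ℝ) < n := by linarith
  have hom := om_pos n
  have hK := K_pos hn
  have hA1 := hA n hn
  obtain ⟨N, hNn⟩ : ∃ N : ℝ, N = n := ⟨_, rfl⟩
  rw [← hNn] at hN hN0 hA1 ⊢
  obtain ⟨L, hL⟩ : ∃ L : ℝ, L = Real.log (N + 1) := ⟨_, rfl⟩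
  rw [← hL] at hA1 ⊢
  have hlog2 : Real.log 2 ≤ L := by
    rw [hL]
    exact Real.log_le_log (by norm_num) (by linarith)
  have hl2 : 0.6931471803 < Real.log 2 := Real.log_two_gt_d9
  have hl4 : Real.log 4 = 2 * Real.log 2 := by
    rw [show (4 : ℝ) = 2 ^ 2 by norm_num, Real.log_pow]
    norm_num
  have h1 : Real.log (K n) = -Real.log N - (1 / N) * Real.log (om n) := by
    unfold K
    rw [← hNn, one_div, Real.log_inv, Real.log_mul hN0.ne' (Real.rpow_pos_of_pos hom _).ne',
      Real.log_rpow hom]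
    ring
  have h2 : Real.log (CC n) = N / (2 * N + 2) * (2 * Real.log (K n) - Real.log 2 +
      4 * Real.log ((N + 1) / N) + (1 / N) * Real.log (4 * (N + 1) ^ 5 / N)) := by
    unfold CC
    rw [← hNn]
    have e1 : 0 < K n ^ 2 / 2 := by positivity
    have e2 : 0 < ((N + 1) / N) ^ 4 := by positivity
    have e3 : 0 < 4 * (N + 1) ^ 5 / N := by positivity
    have e4 : 0 < (4 * (N + 1) ^ 5 / N) ^ (1 / N) := Real.rpow_pos_of_pos e3 _
    rw [Real.log_rpow (by positivity), Real.log_mul (by positivity) e4.ne',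
      Real.log_mul e1.ne' e2.ne', Real.log_rpow e3, Real.log_pow, Real.log_div (by positivity)
      (by norm_num), Real.log_pow]
    push_cast
    ring
  -- the upper bounds
  have hQ : Real.log (4 * Real.pi * Real.exp 1 * N) =
      Real.log 4 + Real.log Real.pi + 1 + Real.log N := by
    have := Real.pi_pos
    rw [Real.log_mul (by positivity) (by positivity), Real.log_mul (by positivity)
      (by positivity), Real.log_mul (by positivity) (by positivity), Real.log_exp]
  have hq : Real.log (2 * Real.pi * Real.exp 1 / N) =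
      Real.log 2 + Real.log Real.pi + 1 - Real.log N := by
    have := Real.pi_pos
    rw [Real.log_div (by positivity) (by positivity), Real.log_mul (by positivity)
      (by positivity), Real.log_mul (by positivity) (by positivity), Real.log_exp]
  have hpi : Real.log Real.pi ≤ 2 * L := by
    have h3 : Real.log Real.pi ≤ Real.log 4 := Real.log_le_log Real.pi_pos Real.pi_le_four
    linarith
  have hlN : 0 ≤ Real.log N := Real.log_nonneg hN
  have hlN2 : Real.log N ≤ L := by
    rw [hL]
    exact Real.log_le_log hN0 (by linarith)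
  have b1 : 2 * Real.log (K n) - Real.log 2 ≤
      -Real.log (4 * Real.pi * Real.exp 1 * N) + 2 * |A| * L / N := by
    rw [h1, hQ]
    have h3 : Real.log (om n) ≥ N / 2 * (Real.log 2 + Real.log Real.pi + 1 - Real.log N) -
        |A| * L := by
      rw [hq] at hA1
      have h4 : A * L ≤ |A| * L := mul_le_mul_of_nonneg_right (le_abs_self A) (by linarith)
      linarith
    have h5 : (1 / N) * Real.log (om n) ≥ (1 / N) *
        (N / 2 * (Real.log 2 + Real.log Real.pi + 1 - Real.log N) - |A| * L) :=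
      mul_le_mul_of_nonneg_left h3 (by positivity)
    have h6 : (1 / N) *
        (N / 2 * (Real.log 2 + Real.log Real.pi + 1 - Real.log N) - |A| * L) =
        1 / 2 * (Real.log 2 + Real.log Real.pi + 1 - Real.log N) - |A| * L / N := by
      field_simp
    have h7 : 2 * |A| * L / N = 2 * (|A| * L / N) := by ring
    rw [h6] at h5
    rw [h7, hl4]
    linarith
  have b2 : 4 * Real.log ((N + 1) / N) ≤ 8 * L / N := by
    have h3 : Real.log ((N + 1) / N) ≤ (N + 1) / N - 1 :=
      Real.log_le_sub_one_of_pos (by positivity)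
    have h4 : (N + 1) / N - 1 = 1 / N := by field_simp; ring
    have h5 : 4 * (1 / N) ≤ 8 * L / N := by
      rw [mul_one_div]
      exact div_le_div_of_nonneg_right (by linarith) hN0.le
    linarith
  have b3 : (1 / N) * Real.log (4 * (N + 1) ^ 5 / N) ≤ 7 * L / N := by
    have h3 : Real.log (4 * (N + 1) ^ 5 / N) ≤ 7 * L := by
      rw [Real.log_div (by positivity) hN0.ne', Real.log_mul (by norm_num) (by positivity),
        Real.log_pow, ← hL, hl4]
      push_cast
      linarith
    rw [one_div, inv_mul_eq_div]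
    exact div_le_div_of_nonneg_right h3 hN0.le
  have b4 : Real.log (4 * Real.pi * Real.exp 1 * N) ≤ 7 * L := by
    rw [hQ, hl4]
    linarith
  obtain ⟨Q, hQe⟩ : ∃ Q : ℝ, Q = Real.log (4 * Real.pi * Real.exp 1 * N) := ⟨_, rfl⟩
  rw [← hQe] at b1 b4 ⊢
  have hL0 : 0 < L := by linarith
  rw [h2]
  have b5 : 2 * Real.log (K n) - Real.log 2 + 4 * Real.log ((N + 1) / N) +
      (1 / N) * Real.log (4 * (N + 1) ^ 5 / N) ≤ -Q + (2 * |A| + 15) * L / N := by
    have e : (2 * |A| + 15) * L / N = 2 * |A| * L / N + 8 * L / N + 7 * L / N := by ring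
    rw [e]
    linarith
  have b6 : N / (2 * N + 2) * (2 * Real.log (K n) - Real.log 2 + 4 * Real.log ((N + 1) / N) +
      (1 / N) * Real.log (4 * (N + 1) ^ 5 / N)) ≤
      N / (2 * N + 2) * (-Q + (2 * |A| + 15) * L / N) :=
    mul_le_mul_of_nonneg_left b5 (by positivity)
  refine b6.trans ?_
  have e1 : N / (2 * N + 2) * (-Q + (2 * |A| + 15) * L / N) =
      -(1 / 2) * Q + (Q + (2 * |A| + 15) * L) / (2 * N + 2) := by
    field_simp
    ring
  rw [e1]
  have b7 : (Q + (2 * |A| + 15) * L) / (2 * N + 2) ≤ (11 + |A|) * L / N := by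
    rw [div_le_div_iff₀ (by positivity) hN0]
    have hA0 := abs_nonneg A
    have h3 : Q + (2 * |A| + 15) * L ≤ 2 * ((11 + |A|) * L) := by nlinarith
    have h4 : 0 ≤ (11 + |A|) * L := by positivity
    nlinarith
  linarith

end Pool.Agent.H17.HS
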