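import Pool.Agent.H80.HS.Targets

/-! Prekopa-Leindler on `Fin n → ℝ` from the one-dimensional inequality. -/

namespace Pool.Agent.H17.HS
open MeasureTheory Set Pool.Agent.H80.HS
open scoped ContDiff ENNReal

private lemma lint_succ (n : ℕ) (f : (Fin (n + 1) → ℝ) → ℝ≥0∞) (hf : Measurable f) :
    ∫⁻ x, f x = ∫⁻ a : ℝ, ∫⁻ y : Fin n → ℝ, f (Fin.cons a y) := by
  have e := (MeasureTheory.volume_preserving_piFinSuccAbove (fun _ : Fin (n + 1) => ℝ) 0).symm
  have h1 := e.lintegral_comp_emb (MeasurableEquiv.measurableEmbedding _) f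
  rw [← h1]
  have h2 : ∀ p : ℝ × (Fin n → ℝ),
      (MeasurableEquiv.piFinSuccAbove (fun _ : Fin (n + 1) => ℝ) 0).symm p =
        Fin.cons p.1 p.2 := by
    intro p
    apply (MeasurableEquiv.piFinSuccAbove (fun _ : Fin (n + 1) => ℝ) 0).injective
    rw [MeasurableEquiv.apply_symm_apply]
    rfl
  simp_rw [h2]
  have hm : Measurable fun p : ℝ × (Fin n → ℝ) => f (Fin.cons p.1 p.2) := by
    have h3 : (fun p : ℝ × (Fin n → ℝ) => f (Fin.cons p.1 p.2)) = f ∘
        (MeasurableEquiv.piFinSuccAbove (fun _ : Fin (n + 1) => ℝ) 0).symm := by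
      funext p
      rw [Function.comp, h2]
    rw [h3]
    exact hf.comp (MeasurableEquiv.measurable _)
  exact lintegral_prod _ hm.aemeasurable

private lemma meas_cons (n : ℕ) (f : (Fin (n + 1) → ℝ) → ℝ≥0∞) (hf : Measurable f) :
    Measurable fun p : ℝ × (Fin n → ℝ) => f (Fin.cons p.1 p.2) := by
  refine hf.comp (measurable_pi_lambda _ fun i => ?_)
  refine Fin.cases ?_ (fun j => ?_) i
  · exact measurable_fst
  · simp only [Fin.cons_succ]
    exact (measurable_pi_apply j).comp measurable_snd

theorem b3 : T_B2 → T_B3 := by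
  intro hB n
  induction n with
  | zero =>
    intro l hl0 hl1 f g h hf hg hh hle
    have key : ∀ f : (Fin 0 → ℝ) → ℝ≥0∞, ∫⁻ x, f x = f default := by
      intro f
      have h1 : (volume : Measure (Fin 0 → ℝ)) = Measure.dirac default := by
        rw [volume_pi]
        exact Measure.pi_of_empty _ _
      rw [h1]
      exact lintegral_dirac _ _
    rw [key, key, key]
    have h1 := hle default default
    rwa [Subsingleton.elim ((1 - l) • (default : Fin 0 → ℝ) + l • default) default] at h1
  | succ n ih =>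
    intro l hl0 hl1 f g h hf hg hh hle
    rw [lint_succ n f hf, lint_succ n g hg, lint_succ n h hh]
    refine hB l hl0 hl1 _ _ _ (meas_cons n f hf).lintegral_prod_right'
      (meas_cons n g hg).lintegral_prod_right' (meas_cons n h hh).lintegral_prod_right' ?_
    intro a b
    refine ih l hl0 hl1 (fun y => f (Fin.cons a y)) (fun y => g (Fin.cons b y))
      (fun y => h (Fin.cons ((1 - l) * a + l * b) y))
      ((meas_cons n f hf).comp measurable_prodMk_left)
      ((meas_cons n g hg).comp measurable_prodMk_left)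
      ((meas_cons n h hh).comp measurable_prodMk_left) ?_
    intro x y
    have h1 := hle (Fin.cons a x) (Fin.cons b y)
    have h2 : (1 - l) • (Fin.cons a x : Fin (n + 1) → ℝ) + l • (Fin.cons b y : Fin (n + 1) → ℝ) =
        Fin.cons ((1 - l) * a + l * b) ((1 - l) • x + l • y) := by
      funext i
      refine Fin.cases ?_ (fun j => ?_) i
      · simp
      · simp
    rwa [h2] at h1

end Pool.Agent.H17.HS
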